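import Mathlib
import Pool.Agent.H280R3.W.Decay
import Pool.Agent.H280R3.W.Synth

/-! The chosen parameters and the facts used in the continuation argument. -/

open Set MeasureTheory Filter Topology Finset
open scoped RealInnerProductSpace ContDiff

namespace Pool.Agent.H280R3.W

/-- the shell system of a solution on `[0, T']` -/
abbrev ShellOf (φ ψ ρ : V → V) (lam ν R T c0 : ℝ) (u : ℝ → V → V) : Prop :=
  Shell (gg (-hf φ φ / ip φ φ) lam) (muu (ν * dir φ φ / ip φ φ) lam)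
      (ss (c0 ^ 2 * -hf ρ ρ / (4 * ip φ φ)) lam) (ss (9 * c0 ^ 2 * -hf ρ ρ / (4 * ip φ φ)) lam)
      (kk (9 * c0 ^ 2 * -hf ρ ρ / (4 * -hf φ φ)) lam) R T
      (fun n t => af φ (MM lam) (u t) n)
      (fun n t => tt φ ψ ρ (MM lam) (EE lam) (u t) (n + 1) / (-hf φ φ))
      (fun n t => MM lam n ^ 5 * (cf ψ ρ (MM lam) (EE lam) (u t) ^ 2 * EE lam n * (-hf ρ ρ))
        / ip φ φ)
      (fun n t => (-hf ρ ρ) / (-hf φ φ) * (cf ψ ρ (MM lam) (EE lam) (u t) ^ 2 * EE lam n))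

/-- properties of the profiles and of the scales -/
structure Stat (φ ρ ψ : V → V) (x₁ : V) (lam : ℝ) : Prop where
  P : Prof φ ρ ψ x₁
  S : Scl (MM lam) (EE lam)
  one : 1 ≤ lam
  half : ∀ n, EE lam (n + 1) ≤ EE lam n / 2
  hh : Half lam
  two : ∀ n, 2 ≤ LL lam n
  c8 : ∀ (C : ℝ) (N : ℕ), ∃ n : ℕ, N ≤ n ∧
    C * Real.exp (LL lam (n + 1)) < gg (-hf φ φ / ip φ φ) lam n * rr n

/-- a datum `vd` whose cascade starts in the mode `ks` -/
structure Good (φ ρ ψ : V → V) (x₁ : V) (ν T lam R c0 : ℝ) (vd : V → V) (ks Ns : ℕ) : Prop where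
  P : Prof φ ρ ψ x₁
  S : Scl (MM lam) (EE lam)
  one : 1 ≤ lam
  half : ∀ n, EE lam (n + 1) ≤ EE lam n / 2
  ν_pos : 0 < ν
  T_pos : 0 < T
  T_le : T ≤ 1
  R_ge : 1 ≤ R
  c_ne : c0 ≠ 0
  vm : vd ∈ Submodule.span ℝ (Set.range (Fam φ ψ ρ (MM lam) (EE lam)))
  a0 : rs Ns ks ≤ af φ (MM lam) vd ks
  a1 : af φ (MM lam) vd (ks + 1) = δ (gg (-hf φ φ / ip φ φ) lam) ks
  az : ∀ n, ks + 2 ≤ n → af φ (MM lam) vd n = 0
  par : Par ks (gg (-hf φ φ / ip φ φ) lam) (muu (ν * dir φ φ / ip φ φ) lam)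
      (ss (c0 ^ 2 * -hf ρ ρ / (4 * ip φ φ)) lam) (ss (9 * c0 ^ 2 * -hf ρ ρ / (4 * ip φ φ)) lam)
      (kk (9 * c0 ^ 2 * -hf ρ ρ / (4 * -hf φ φ)) lam)
      (etaa (Ceta (-hf φ φ / ip φ φ) R (9 * c0 ^ 2 * -hf ρ ρ / (4 * ip φ φ))
        (9 * c0 ^ 2 * -hf ρ ρ / (4 * -hf φ φ))) lam) (QQ lam)
      (Lam (KK R (-hf φ φ / ip φ φ)) lam) (rs Ns) R T
  c8 : ∀ C : ℝ, ∃ n : ℕ, ks ≤ n ∧
    C * Real.exp (LL lam (n + 1)) < gg (-hf φ φ / ip φ φ) lam n * rs Ns n
  shell : ∀ T' u, 0 ≤ T' → T' ≤ T →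
    GSol ν (Fam φ ψ ρ (MM lam) (EE lam)) vd T' u → ShellOf φ ψ ρ lam ν R T' c0 u

theorem ev_halfE : ∀ᶠ lam in (atTop : Filter ℝ), ∀ n : ℕ, EE lam (n + 1) ≤ EE lam n / 2 := by
  filter_upwards [ev_half, ev_L_ge 0] with lam h h0 n
  have h1 := h n
  have e1 := EE_pos lam n
  have e2 := EE_pos lam (n + 1)
  have e3 : Real.exp (5 / 2 * LL lam n) ≤ Real.exp (5 / 2 * LL lam (n + 1)) := by
    apply Real.exp_le_exp.mpr
    rw [LL_succ]
    linarith [h0 n]
  have e4 : Real.exp (5 / 2 * LL lam n) * EE lam (n + 1)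
      ≤ Real.exp (5 / 2 * LL lam n) * (EE lam n / 2) := by
    have := mul_le_mul_of_nonneg_right e3 e2.le
    linarith
  exact le_of_mul_le_mul_left e4 (Real.exp_pos _)

theorem exists_stat {φ ρ ψ : V → V} {x₁ : V} (P : Prof φ ρ ψ x₁) :
    ∃ lam, Stat φ ρ ψ x₁ lam ∧ ∀ x, ‖PP ψ ρ (MM lam) (EE lam) x - ψ x‖ ≤ 1 := by
  have hF := φ_pos P
  have hq : 0 < -hf φ φ := by linarith [P.q_pos]
  obtain ⟨lam, h1, h2, h3, h4, h5, h6, h7⟩ := (ev_scl.and ((eventually_ge_atTop 1).and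
    (ev_halfE.and (ev_half.and ((ev_L_ge 2).and
    ((ev_c8 (γ := -hf φ φ / ip φ φ) (by positivity)).and (ev_tail P))))))).exists
  exact ⟨lam, ⟨P, h1, h2, h3, h4, h5, h6⟩, h7⟩

theorem Par.mono_μ {n₀ : ℕ} {g μ μ' slo shi κh η Q Λ r : ℕ → ℝ} {R T : ℝ}
    (Pr : Par n₀ g μ slo shi κh η Q Λ r R T) (h : ∀ n, μ' n ≤ μ n) (hm : ∀ n, μ' n ≤ μ' (n + 1))
    (hR : 0 ≤ R) (hD : ∀ n, 0 ≤ D g Λ r n) (hslo : ∀ n, 0 ≤ slo n) (hg : ∀ n, 0 < g n) :
    Par n₀ g μ' slo shi κh η Q Λ r R T :=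
  { Pr with
    μ_mono := hm
    c1 := fun n hn => by
      refine le_trans ?_ (Pr.c1 n hn)
      have h1 : 0 ≤ 64 * R * Λ n := by have := Pr.Λ_ge n; positivity
      exact mul_le_mul_of_nonneg_left (by linarith [h (n + 1)]) h1
    c7 := fun n hn => by
      refine (Pr.c7 n hn).trans_le ?_
      have h1 := mul_le_mul_of_nonneg_right (h (n + 2)) (hD n)
      have h2 : 0 ≤ slo (n + 2) / 2 * (1 / (8 * (g n * R))) := by
        have := hslo (n + 2)
        have := (hg n).le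
        positivity
      exact mul_le_mul_of_nonneg_left (Real.exp_le_exp.mpr (by linarith)) h2 }

section dat

variable {φ ρ ψ : V → V} {x₁ : V} {M ε : ℕ → ℝ}

theorem ip_v_un (P : Prof φ ρ ψ x₁) (S : Scl M ε) {v : V → V} (hv : TF v) (n : ℕ) :
    ip v (un φ ψ ρ M ε v n) = ip (un φ ψ ρ M ε v n) (un φ ψ ρ M ε v n) := by
  have hP := PP_TF P S
  have hF := φ_pos P
  have hPp := PP_ip_pos P S
  have e0 : ∀ n, ip v (sm φ M v n) = ip φ φ * ∑ m ∈ range n, af φ M v m ^ 2 := by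
    intro n
    unfold sm
    rw [cip_sum hv.cont (fun m _ => (φT P S m).CC.smul _), mul_sum]
    refine sum_congr rfl fun m _ => ?_
    rw [ip_smul_right]
    have : ip v (sc (M m) φ) = af φ M v m * ip φ φ := by
      unfold af; rw [div_mul_cancel₀ _ hF.ne']
    rw [this]; ring
  rw [ip_un P S]
  unfold un
  rw [cip_add hv.cont (hP.smul _).CC (sm_TF P S v n).CC, ip_smul_right, e0 n]
  have : ip v (PP ψ ρ M ε) = cf ψ ρ M ε v * ip (PP ψ ρ M ε) (PP ψ ρ M ε) := by
    unfold cf; rw [div_mul_cancel₀ _ hPp.ne']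
  rw [this]; ring

theorem un_le_ip (P : Prof φ ρ ψ x₁) (S : Scl M ε) {v : V → V} (hv : TF v) (n : ℕ) :
    ip (un φ ψ ρ M ε v n) (un φ ψ ρ M ε v n) ≤ ip v v := by
  have hU := un_TF (ψ := ψ) (ρ := ρ) (ε := ε) P S v n
  have h1 := ip_v_un P S hv n
  set U := un φ ψ ρ M ε v n
  have h2 := ip_self_nonneg (v - U)
  have h3 : ip (v - U) (v - U) = ip v v - ip v U - (ip v U - ip U U) := by
    rw [ip_sub_left hv.cont hU.cont (hv.sub hU), ip_comm v (v - U), ip_comm U (v - U),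
      ip_sub_left hv.cont hU.cont hv, ip_sub_left hv.cont hU.cont hU, ip_comm U v]
  rw [h3, h1] at h2
  linarith

theorem ip_add_le {a b : V → V} (ha : TF a) (hb : TF b) :
    ip (a + b) (a + b) ≤ 2 * (ip a a + ip b b) := by
  have ia := ip_int ha.cont ha
  have ib := ip_int hb.cont hb
  have iab : Integrable (fun x => ⟪a x, a x⟫ + ⟪b x, b x⟫) := ia.add ib
  have key : ∫ x, 2 * (⟪a x, a x⟫ + ⟪b x, b x⟫) = 2 * (ip a a + ip b b) := by
    rw [integral_const_mul, integral_add ia ib]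
    rfl
  rw [← key]
  unfold ip
  have hT := ha.add hb
  refine integral_mono (ip_int hT.cont hT) (iab.const_mul 2) fun x => ?_
  simp only [Pi.add_apply, real_inner_self_eq_norm_sq]
  have h1 : ‖a x + b x‖ ≤ ‖a x‖ + ‖b x‖ := norm_add_le _ _
  have h2 : ‖a x + b x‖ ^ 2 ≤ (‖a x‖ + ‖b x‖) ^ 2 := pow_le_pow_left₀ (norm_nonneg _) h1 2
  nlinarith [sq_nonneg (‖a x‖ - ‖b x‖)]

theorem span_TF {Φ : ℕ → V → V} (h : ∀ k, TF (Φ k)) {w : V → V}
    (hw : w ∈ Submodule.span ℝ (Set.range Φ)) : TF w := by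
  induction hw using Submodule.span_induction with
  | mem x hx => obtain ⟨j, rfl⟩ := hx; exact h j
  | zero => exact TF.zero
  | add x y _ _ hx hy => exact hx.add hy
  | smul c x _ hx => exact hx.smul c

/-- elements of the span have finitely many coefficients -/
theorem span_af (P : Prof φ ρ ψ x₁) (S : Scl M ε) {w : V → V}
    (hw : w ∈ Submodule.span ℝ (Set.range (Fam φ ψ ρ M ε))) :
    ∃ N, ∀ n ≥ N, af φ M w n = 0 := by
  have hT := Fam_TF (φ := φ) (ψ := ψ) (ρ := ρ) P S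
  induction hw using Submodule.span_induction with
  | mem x hx =>
    obtain ⟨j, rfl⟩ := hx
    refine ⟨j, fun n hn => ?_⟩
    unfold af
    cases j with
    | zero =>
      show ip (PP ψ ρ M ε) (sc (M n) φ) / ip φ φ = 0
      rw [ip_φP P S, zero_div]
    | succ j =>
      show ip (sc (M j) φ) (sc (M n) φ) / ip φ φ = 0
      rw [ip_φφ' P S, if_neg (by omega), zero_div]
  | zero => exact ⟨0, fun n _ => by unfold af ip; simp⟩
  | add x y hx' hy' hx hy =>
    obtain ⟨N1, h1⟩ := hx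
    obtain ⟨N2, h2⟩ := hy
    refine ⟨max N1 N2, fun n hn => ?_⟩
    have e1 := h1 n ((le_max_left _ _).trans hn)
    have e2 := h2 n ((le_max_right _ _).trans hn)
    unfold af at e1 e2 ⊢
    rw [ip_add_left (span_TF hT hx').cont (span_TF hT hy').cont (φT P S n), add_div, e1, e2,
      add_zero]
  | smul c x _ hx =>
    obtain ⟨N1, h1⟩ := hx
    refine ⟨N1, fun n hn => ?_⟩
    have e1 := h1 n hn
    unfold af at e1 ⊢
    rw [ip_smul_left, mul_div_assoc, e1, mul_zero]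

/-- the perturbation -/
noncomputable def pert (φ : V → V) (M : ℕ → ℝ) (r d : ℝ) (k : ℕ) : V → V :=
  r • sc (M k) φ + d • sc (M (k + 1)) φ

theorem pert_TF (P : Prof φ ρ ψ x₁) (S : Scl M ε) (r d : ℝ) (k : ℕ) : TF (pert φ M r d k) :=
  ((φT P S k).smul r).add ((φT P S (k + 1)).smul d)

theorem pert_ip (P : Prof φ ρ ψ x₁) (S : Scl M ε) (r d : ℝ) (k : ℕ) :
    ip (pert φ M r d k) (pert φ M r d k) = (r ^ 2 + d ^ 2) * ip φ φ := by
  have h1 := (φT P S k).smul r
  have h2 := (φT P S (k + 1)).smul d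
  have hT := pert_TF P S r d k
  unfold pert at hT ⊢
  rw [ip_add_left h1.cont h2.cont hT, ip_comm (r • sc (M k) φ), ip_comm (d • sc (M (k + 1)) φ),
    ip_add_left h1.cont h2.cont h1, ip_add_left h1.cont h2.cont h2]
  simp only [ip_smul_left, ip_smul_right]
  rw [ip_φφ' P S, ip_φφ' P S, ip_φφ' P S, ip_φφ' P S, if_pos rfl, if_pos rfl,
    if_neg (by omega), if_neg (by omega)]
  ring

theorem pert_cf (P : Prof φ ρ ψ x₁) (S : Scl M ε) {v : V → V} (hv : TF v) (r d : ℝ) (k : ℕ) :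
    cf ψ ρ M ε (v + pert φ M r d k) = cf ψ ρ M ε v := by
  have h1 := (φT P S k).smul r
  have h2 := (φT P S (k + 1)).smul d
  have hP := PP_TF P S
  unfold cf
  congr 1
  rw [ip_add_left hv.cont (pert_TF P S r d k).cont hP]
  unfold pert
  rw [ip_add_left h1.cont h2.cont hP, ip_smul_left, ip_smul_left, ip_comm (sc (M k) φ),
    ip_φP P S, ip_comm (sc (M (k + 1)) φ), ip_φP P S]
  ring

theorem pert_af (P : Prof φ ρ ψ x₁) (S : Scl M ε) {v : V → V} (hv : TF v) (r d : ℝ) (k n : ℕ) :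
    af φ M (v + pert φ M r d k) n
      = af φ M v n + ((if n = k then r else 0) + (if n = k + 1 then d else 0)) := by
  have h1 := (φT P S k).smul r
  have h2 := (φT P S (k + 1)).smul d
  have hn := φT P S n
  have hF := φ_pos P
  unfold af
  rw [ip_add_left hv.cont (pert_TF P S r d k).cont hn, add_div]
  congr 1
  unfold pert
  rw [ip_add_left h1.cont h2.cont hn, ip_smul_left, ip_smul_left, ip_φφ' P S, ip_φφ' P S]
  by_cases h3 : n = k
  · rw [if_pos h3.symm, if_neg (by omega), if_pos h3, if_neg (by omega)]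
    field_simp
    ring
  · by_cases h4 : n = k + 1
    · rw [if_neg (by omega), if_pos h4.symm, if_neg h3, if_pos h4]
      field_simp
      ring
    · rw [if_neg (by omega), if_neg (by omega), if_neg h3, if_neg h4]
      simp

end dat

/-- near every datum of the span there are good data -/
theorem exists_good {φ ρ ψ : V → V} {x₁ : V} {lam : ℝ} (G : Stat φ ρ ψ x₁ lam) {v : V → V}
    (hv : v ∈ Submodule.span ℝ (Set.range (Fam φ ψ ρ (MM lam) (EE lam))))
    (hc : cf ψ ρ (MM lam) (EE lam) v ≠ 0) {ν₀ η : ℝ} (hν₀ : 0 < ν₀) (hη : 0 < η) :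
    ∃ (T R r d : ℝ) (ks Ns : ℕ), T ≤ η ∧ rad (MM lam) ks ≤ η ∧ (r ^ 2 + d ^ 2) * ip φ φ ≤ η ∧
      ∀ ν, 0 < ν → ν ≤ ν₀ → Good φ ρ ψ x₁ ν T lam R (cf ψ ρ (MM lam) (EE lam) v)
        (v + pert φ (MM lam) r d ks) ks Ns := by
  have P := G.P
  have S := G.S
  have hF := φ_pos P
  have hq : 0 < -hf φ φ := by linarith [P.q_pos]
  have hβ : 0 < -hf ρ ρ := by linarith [P.β_pos]
  have hA : 0 ≤ dir φ φ := by
    unfold dir
    exact integral_nonneg fun x => sum_nonneg fun i _ => real_inner_self_nonneg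
  have hvT : TF v := span_TF (Fam_TF P S) hv
  obtain ⟨N₁, hN₁⟩ := span_af P S hv
  have hPT := PP_TF P S
  have hPlpos := PP_ip_pos P S
  obtain ⟨B, hB0, hb⟩ := cs_bound hPT.contd (R := sr ψ)
    (fun x hx => fderiv_zero_of (PP_zero P S) x hx)
  set c := cf ψ ρ (MM lam) (EE lam) v with hcdef
  have hc2 : 0 < c ^ 2 := by positivity
  have hc1 : 0 < |c| := abs_pos.mpr hc
  set Pl := ip (PP ψ ρ (MM lam) (EE lam)) (PP ψ ρ (MM lam) (EE lam)) with hPl
  set Dd := |dir (PP ψ ρ (MM lam) (EE lam)) (PP ψ ρ (MM lam) (EE lam))| with hDd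
  have hDd0 : 0 ≤ Dd := abs_nonneg _
  set F := ip φ φ with hFdef
  have hvv := ip_self_nonneg v
  set E := 2 * (ip v v + 2 * F) with hE
  have hE0 : 0 ≤ E := by positivity
  set Cc := Real.sqrt (E / Pl) with hCc
  have hCc0 : 0 ≤ Cc := Real.sqrt_nonneg _
  set R := Real.sqrt (E / F) + 1 with hR
  set C₁ := (B * E + ν₀ * (Cc * Dd)) / Pl with hC₁
  have hC₁0 : 0 ≤ C₁ := by positivity
  set T := min 1 (min η (|c| / (2 * (C₁ + 1)))) with hT
  have hTpos : 0 < T := lt_min one_pos (lt_min hη (by positivity))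
  have hT1 : T ≤ 1 := min_le_left _ _
  have hTη : T ≤ η := (min_le_right _ _).trans (min_le_left _ _)
  have hCT : C₁ * T ≤ |c| / 2 := by
    have h1 : T ≤ |c| / (2 * (C₁ + 1)) := (min_le_right _ _).trans (min_le_right _ _)
    have h2 : C₁ * T ≤ C₁ * (|c| / (2 * (C₁ + 1))) := mul_le_mul_of_nonneg_left h1 hC₁0
    refine h2.trans ?_
    rw [mul_div_assoc', div_le_div_iff₀ (by positivity) (by norm_num)]
    nlinarith
  have hR1 : 1 ≤ R := by
    have := Real.sqrt_nonneg (E / F)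
    linarith
  have hRE : E ≤ F * R ^ 2 := by
    have h1 : Real.sqrt (E / F) ^ 2 = E / F := Real.sq_sqrt (by positivity)
    have h2 : E / F ≤ R ^ 2 := by
      rw [← h1]
      exact pow_le_pow_left₀ (Real.sqrt_nonneg _) (by linarith) 2
    rw [div_le_iff₀ hF] at h2
    linarith
  have hCcE : E ≤ Cc ^ 2 * Pl := by
    rw [hCc, Real.sq_sqrt (by positivity), div_mul_cancel₀ _ hPlpos.ne']
  have hpar := par_shift (γ := -hf φ φ / F) (m := ν₀ * dir φ φ / F)
    (s₁ := c ^ 2 * -hf ρ ρ / (4 * F)) (s₂ := 9 * c ^ 2 * -hf ρ ρ / (4 * F))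
    (k := 9 * c ^ 2 * -hf ρ ρ / (4 * -hf φ φ)) (R := R) (T := T) (lam := lam)
    (by positivity) (by positivity) (by positivity) (by positivity) (by positivity) hR1 hTpos
    G.one G.hh G.two
  obtain ⟨k, hk⟩ : ∃ k : ℕ, (1 / 64 : ℝ) ^ k < η / (2 * F) :=
    exists_pow_lt_of_lt_one (by positivity) (by norm_num)
  obtain ⟨Ns, hNs, hNs1, hNs2⟩ := (hpar.and ((eventually_ge_atTop N₁).and
    (S.rad_tendsto.eventually (gt_mem_nhds hη)))).exists
  have Pr := hNs (Ns + k) (by omega)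
  set ks := Ns + k with hks
  have hr0 : rs Ns ks = (1 / 64 : ℝ) ^ k := by
    rw [hks, rs_sh]; unfold rr; rw [div_pow, one_pow]
  set r := rs Ns ks with hr
  set d := δ (gg (-hf φ φ / F) lam) ks with hd
  have hrpos : 0 < r := Pr.r_pos ks
  have hr1 : r ≤ 1 := Pr.r_le ks
  have hd0 : 0 < d := by
    have := gg_pos (γ := -hf φ φ / F) (by positivity) lam ks
    rw [hd]; unfold δ; positivity
  have hdr : d ≤ r := by
    have := Pr.c4' ks le_rfl
    linarith
  have hrd : r ^ 2 + d ^ 2 ≤ 2 * r := by nlinarith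
  have hWF : (r ^ 2 + d ^ 2) * F ≤ η := by
    rw [hr0, lt_div_iff₀ (by positivity)] at *
    have := mul_le_mul_of_nonneg_right hrd hF.le
    linarith
  have hWF2 : (r ^ 2 + d ^ 2) * F ≤ 2 * F := mul_le_mul_of_nonneg_right (by linarith) hF.le
  have hradk : rad (MM lam) ks ≤ η := (S.rad_anti (by omega)).trans hNs2.le
  refine ⟨T, R, r, d, ks, Ns, hTη, hradk, hWF, fun ν hν hνν => ?_⟩
  have hWT := pert_TF P S r d ks
  have hcu : cf ψ ρ (MM lam) (EE lam) (v + pert φ (MM lam) r d ks) = c := pert_cf P S hvT r d ks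
  have hspan : v + pert φ (MM lam) r d ks
      ∈ Submodule.span ℝ (Set.range (Fam φ ψ ρ (MM lam) (EE lam))) := by
    have h0 : ∀ k, Fam φ ψ ρ (MM lam) (EE lam) k
        ∈ Submodule.span ℝ (Set.range (Fam φ ψ ρ (MM lam) (EE lam))) :=
      fun k => Submodule.subset_span ⟨k, rfl⟩
    exact Submodule.add_mem _ hv (Submodule.add_mem _ (Submodule.smul_mem _ _ (h0 (ks + 1)))
      (Submodule.smul_mem _ _ (h0 (ks + 2))))
  refine ⟨P, S, G.one, G.half, hν, hTpos, hT1, hR1, hc, hspan, ?_, ?_, fun n hn => ?_,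
    Pr.mono_μ (fun n => ?_) (fun n => ?_) (by linarith) (fun n => ?_) (fun n => ?_) (fun n => ?_),
    fun C => ?_, fun T' u hT'0 hT' hu => ?_⟩
  · rw [pert_af P S hvT, hN₁ ks (by omega), if_pos rfl, if_neg (by omega), zero_add, add_zero]
  · rw [pert_af P S hvT, hN₁ (ks + 1) (by omega), if_neg (by omega), if_pos rfl, zero_add,
      zero_add]
  · rw [pert_af P S hvT, hN₁ n (by omega), if_neg (by omega), if_neg (by omega)]
    simp
  · unfold muu
    refine mul_le_mul_of_nonneg_right ?_ (Real.exp_pos _).le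
    exact div_le_div_of_nonneg_right (mul_le_mul_of_nonneg_right hνν hA) hF.le
  · unfold muu
    refine mul_le_mul_of_nonneg_left (Real.exp_le_exp.mpr ?_) (by positivity)
    have := LL_mono (by linarith [G.one] : (0 : ℝ) ≤ lam) (Nat.le_succ n)
    linarith
  · have h1 := Pr.Λ_ge n
    have h2 := Pr.r_pos n
    have h3 := gg_pos (γ := -hf φ φ / ip φ φ) (by positivity) lam n
    unfold D; positivity
  · have := EE_pos lam n
    unfold ss; positivity
  · exact gg_pos (γ := -hf φ φ / ip φ φ) (by positivity) lam n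
  · obtain ⟨n, hn, h⟩ := G.c8 C ks
    refine ⟨n, hn, h.trans_le ?_⟩
    refine mul_le_mul_of_nonneg_left ?_ (gg_pos (γ := -hf φ φ / ip φ φ) (by positivity) lam n).le
    unfold rs rr
    exact one_div_le_one_div_of_le (by positivity) (pow_le_pow_right₀ (by norm_num) (Nat.sub_le n Ns))
  · have hEn : ∀ n, En φ ψ ρ (MM lam) (EE lam) (u 0) n ≤ E := by
      intro n
      rw [hu.init]
      have h1 := un_le_ip P S (hvT.add hWT) n
      rw [ip_un P S] at h1
      have h2 := ip_add_le hvT hWT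
      rw [pert_ip P S] at h2
      unfold En
      linarith
    have hCT' : (B * E + ν * (Cc * Dd)) / Pl * T' ≤ |c| / 2 := by
      have h1 : (B * E + ν * (Cc * Dd)) / Pl ≤ C₁ := by
        refine div_le_div_of_nonneg_right ?_ hPlpos.le
        have h2 : 0 ≤ Cc * Dd := by positivity
        have h3 := mul_le_mul_of_nonneg_right hνν h2
        linarith
      exact ((mul_le_mul_of_nonneg_right h1 hT'0).trans
        (mul_le_mul_of_nonneg_left hT' hC₁0)).trans hCT
    exact shell_of_sol P S hν hT'0 (hT'.trans hT1) hu hEn hE0 hPlpos le_rfl hb le_rfl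
      hCc0 hCcE hR1 hRE (by rw [hu.init]; exact hcu) hc hCT'

section

variable {φ ρ ψ : V → V} {x₁ : V} {ν T lam R c0 : ℝ} {vd : V → V} {ks Ns : ℕ}

theorem W_eq (φ : V → V) (lam c : ℝ) (u : ℝ → V → V) (n : ℕ) (t : ℝ) :
    W (gg c lam) (fun n t => af φ (MM lam) (u t) n) n t = c * Wf φ (MM lam) (u t) n := by
  unfold W Wf gg
  rw [mul_sum]
  refine sum_congr rfl fun m _ => ?_
  rw [MM_pow]
  have : ((5 : ℕ) : ℝ) * LL lam m / 2 = 5 / 2 * LL lam m := by push_cast; ring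
  rw [this]; ring

theorem rad_exp (lam : ℝ) (n : ℕ) : rad (MM lam) n = (Real.exp (LL lam n))⁻¹ := by
  unfold rad
  rw [MM_pow, one_div]
  congr 2
  push_cast; ring

/-- the strain of a solution with bounded velocity -/
theorem Good.W_bound (G : Good φ ρ ψ x₁ ν T lam R c0 vd ks Ns) {u : ℝ → V → V} {t C : ℝ}
    (hX : InX (Fam φ ψ ρ (MM lam) (EE lam)) (u t)) (hC : ∀ x, ‖u t x‖ ≤ C) (n : ℕ) :
    |W (gg (-hf φ φ / ip φ φ) lam) (fun n t => af φ (MM lam) (u t) n) n t|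
      ≤ (-hf φ φ / ip φ φ * C) * Real.exp (LL lam n) := by
  have hF := φ_pos G.P
  have hq : 0 < -hf φ φ := by linarith [G.P.q_pos]
  have h1 := W_vel G.P G.S hX hC n
  rw [rad_exp, ← div_eq_mul_inv, div_le_iff₀ (Real.exp_pos _)] at h1
  rw [W_eq, abs_mul, abs_of_pos (by positivity), mul_assoc]
  exact mul_le_mul_of_nonneg_left h1 (by positivity)

/-- nonexistence at time `T` -/
theorem Good.no_sol (G : Good φ ρ ψ x₁ ν T lam R c0 vd ks Ns) (u : ℝ → V → V)
    (hu : GSol ν (Fam φ ψ ρ (MM lam) (EE lam)) vd T u) : False := by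
  have hsh := G.shell T u G.T_pos.le le_rfl hu
  have hF := φ_pos G.P
  have hq : 0 < -hf φ φ := by linarith [G.P.q_pos]
  refine cascade hsh G.par ?_ ?_ ?_ ?_
  · show rs Ns ks ≤ af φ (MM lam) (u 0) ks
    rw [hu.init]
    exact G.a0
  · show af φ (MM lam) (u 0) (ks + 1) = _
    rw [hu.init]
    exact G.a1
  · intro n hn
    show af φ (MM lam) (u 0) n = 0
    rw [hu.init]
    exact G.az n hn
  · obtain ⟨C, hC⟩ := hu.bdd
    have hC0 : 0 ≤ C := (norm_nonneg _).trans (hC 0 ⟨le_rfl, G.T_pos.le⟩ 0)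
    obtain ⟨n, hnk, hn⟩ := G.c8 (2 * (-hf φ φ / ip φ φ * C))
    refine ⟨n, hnk, fun t ht => ?_⟩
    have h1 := G.W_bound (hu.mem t ht) (hC t ht) n
    have h2 := G.W_bound (hu.mem t ht) (hC t ht) (n + 1)
    have h3 : Real.exp (LL lam n) ≤ Real.exp (LL lam (n + 1)) :=
      Real.exp_le_exp.mpr (LL_mono (by linarith [G.one]) (Nat.le_succ n))
    have h4 := mul_le_mul_of_nonneg_left h3 (by positivity : 0 ≤ -hf φ φ / ip φ φ * C)
    linarith

theorem dir_φ_pos (P : Prof φ ρ ψ x₁) : 0 < dir φ φ := by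
  rcases (dir_self_nonneg φ).lt_or_eq with h | h
  · exact h
  exfalso
  have hc := P.φT.contd
  have hzero : ∀ x, fderiv ℝ φ x = 0 := by
    by_contra hcon
    push Not at hcon
    obtain ⟨x, hx⟩ := hcon
    have hne : ∃ i, fderiv ℝ φ x (ev i) ≠ 0 := by
      by_contra hall
      push Not at hall
      apply hx
      ext1 y
      have hy : y = ∑ i, y i • ev i := by
        ext j
        fin_cases j <;> simp [ev, Fin.sum_univ_three]
      rw [hy, map_sum]
      simp [hall]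
    obtain ⟨i, hi⟩ := hne
    have hpos : 0 < dir φ φ := by
      unfold dir
      have hcs : HasCompactSupport fun x => ∑ i, ⟪fderiv ℝ φ x (ev i), fderiv ℝ φ x (ev i)⟫ := by
        obtain ⟨r, hr⟩ := P.φT.out
        exact HasCompactSupport.intro (isCompact_closedBall (0 : V) r) fun x hx => by
          simp [(hr x (by simpa using hx)).2]
      refine Continuous.integral_pos_of_hasCompactSupport_nonneg_nonzero (by fun_prop) hcs
        (fun x => Finset.sum_nonneg fun i _ => real_inner_self_nonneg) (x := x) ?_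
      refine (Finset.sum_pos' (fun i _ => real_inner_self_nonneg) ⟨i, Finset.mem_univ i, ?_⟩).ne'
      exact real_inner_self_pos.mpr hi
    linarith
  have hconst : ∀ x, φ x = 0 := by
    intro x
    have h1 := is_const_of_fderiv_eq_zero P.φT.diff hzero x (EuclideanSpace.single 0 1 : V)
    rw [h1]
    refine P.φ0 _ ?_
    simp
    norm_num
  have h3 := P.q_pos
  unfold hf at h3
  simp [hconst] at h3

theorem Good.M1 (G : Good φ ρ ψ x₁ ν T lam R c0 vd ks Ns) (n : ℕ) : 1 ≤ MM lam n := by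
  unfold MM
  refine Real.one_le_exp ?_
  have := LL_ge (by linarith [G.one] : (0 : ℝ) ≤ lam) n
  linarith [G.one]

theorem Good.Wt (G : Good φ ρ ψ x₁ ν T lam R c0 vd ks Ns) : Wt (MM lam) (bb lam) where
  pos := bb_pos lam
  summ := bb_summable G.one

/-- the strain is dominated by the viscosity in the scales beyond `n₀` -/
def Dom (φ : V → V) (ν lam : ℝ) (n₀ : ℕ) (T' : ℝ) (u : ℝ → V → V) : Prop :=
  ∀ t ∈ Icc 0 T', ∀ n ≥ n₀, W (gg (-hf φ φ / ip φ φ) lam)
    (fun n t => af φ (MM lam) (u t) n) n t ≤ muu (ν * dir φ φ / ip φ φ) lam n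

theorem Good.dom_vel (G : Good φ ρ ψ x₁ ν T lam R c0 vd ks Ns) {C : ℝ} (hC0 : 0 ≤ C) :
    ∃ n₀ : ℕ, ∀ (T' : ℝ) (u : ℝ → V → V), (∀ t ∈ Set.Icc 0 T', InX (Fam φ ψ ρ (MM lam) (EE lam)) (u t)) →
      (∀ t ∈ Set.Icc 0 T', ∀ x, ‖u t x‖ ≤ C) → Dom φ ν lam n₀ T' u := by
  have hF := φ_pos G.P
  have hq : 0 < -hf φ φ := by linarith [G.P.q_pos]
  have hA := dir_φ_pos G.P
  have hν := G.ν_pos
  have hdom : ∃ n₀, ∀ n ≥ n₀, (-hf φ φ / ip φ φ * C) * Real.exp (LL lam n)
      ≤ muu (ν * dir φ φ / ip φ φ) lam n := by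
    have h1 : ∀ᶠ n in atTop, (-hf φ φ / ip φ φ * C) / (ν * dir φ φ / ip φ φ) ≤ LL lam n :=
      (LL_tendsto G.one).eventually_ge_atTop _
    obtain ⟨n₀, hn₀⟩ := eventually_atTop.mp h1
    refine ⟨n₀, fun n hn => ?_⟩
    have h2 := hn₀ n hn
    rw [div_le_iff₀ (by positivity)] at h2
    have h3 := Real.add_one_le_exp (LL lam n)
    have h4 : Real.exp (2 * LL lam n) = Real.exp (LL lam n) * Real.exp (LL lam n) := by
      rw [← Real.exp_add]; congr 1; ring
    unfold muu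
    rw [h4]
    have h5 : -hf φ φ / ip φ φ * C ≤ ν * dir φ φ / ip φ φ * Real.exp (LL lam n) := by
      have h6 : LL lam n * (ν * dir φ φ / ip φ φ)
          ≤ Real.exp (LL lam n) * (ν * dir φ φ / ip φ φ) :=
        mul_le_mul_of_nonneg_right (by linarith) (by positivity)
      linarith
    have h7 := mul_le_mul_of_nonneg_right h5 (Real.exp_pos (LL lam n)).le
    linarith
  obtain ⟨n₀, hn₀⟩ := hdom
  exact ⟨n₀, fun T' u hX hvel t ht n hn =>
    (le_abs_self _).trans ((G.W_bound (hX t ht) (hvel t ht) n).trans (hn₀ n hn))⟩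

/-- decay of the coefficients, with a constant depending only on the domination scale -/
theorem Good.decay0 (G : Good φ ρ ψ x₁ ν T lam R c0 vd ks Ns) (n₀ : ℕ) :
    ∃ A : ℝ, 0 < A ∧ ∀ T' u, 0 ≤ T' → T' ≤ T →
      GSol ν (Fam φ ψ ρ (MM lam) (EE lam)) vd T' u →
      Dom φ ν lam n₀ T' u → ∀ t ∈ Icc 0 T', ∀ k, |co φ ψ ρ lam (u t) k| ≤ A := by
  have hF := φ_pos G.P
  have hq : 0 < -hf φ φ := by linarith [G.P.q_pos]
  have hβ : 0 < -hf ρ ρ := by linarith [G.P.β_pos]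
  have hA := dir_φ_pos G.P
  have hν := G.ν_pos
  have hc0 := G.c_ne
  have hc02 : 0 < c0 ^ 2 := by positivity
  set Cη := Ceta (-hf φ φ / ip φ φ) R (9 * c0 ^ 2 * -hf ρ ρ / (4 * ip φ φ))
    (9 * c0 ^ 2 * -hf ρ ρ / (4 * -hf φ φ)) with hCη
  have hR := G.R_ge
  have hCη0 : 0 ≤ Cη := by rw [hCη]; unfold Ceta; positivity
  set K5 := ∑' n, MM lam n ^ 5 * bb lam n with hK5
  have hK50 : 0 ≤ K5 := tsum_nonneg fun n => by
    have := MM_pos lam n; have := bb_pos lam n; positivity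
  have hK5' : ∀ n, MM lam n ^ 5 * bb lam n ≤ K5 := fun n =>
    (bb_summable G.one 5).le_tsum n (fun j _ => by
      have := MM_pos lam j; have := bb_pos lam j; positivity)
  set X := 4 * Cη * K5 with hX
  have hX0 : 0 ≤ X := by positivity
  set N := n₀ + ks + 1 with hN
  have hbN := bb_pos lam N
  refine ⟨Real.sqrt X + R / bb lam N + 3 / 2 * |c0|, by positivity, fun T' u hT'0 hT' hu hdom t ht k => ?_⟩
  have hsh := G.shell T' u hT'0 hT' hu
  have hs0 := Real.sqrt_nonneg X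
  have hRb : 0 ≤ R / bb lam N := by positivity
  cases k with
  | zero =>
    -- the pump
    have h1 := hsh.κ_hi 0 t ht
    unfold kk at h1
    have hE := EE_pos lam 0
    have h2 : cf ψ ρ (MM lam) (EE lam) (u t) ^ 2 ≤ (3 / 2 * |c0|) ^ 2 := by
      rw [mul_pow, sq_abs]
      have h3 : (-hf ρ ρ / -hf φ φ * EE lam 0) * cf ψ ρ (MM lam) (EE lam) (u t) ^ 2
          ≤ (-hf ρ ρ / -hf φ φ * EE lam 0) * ((3 / 2) ^ 2 * c0 ^ 2) := by
        calc _ = -hf ρ ρ / -hf φ φ * (cf ψ ρ (MM lam) (EE lam) (u t) ^ 2 * EE lam 0) := by ring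
          _ ≤ _ := h1
          _ = _ := by
            generalize -hf φ φ = q at hq ⊢
            field_simp
            ring
      exact le_of_mul_le_mul_left h3 (by positivity)
    have h3 : |cf ψ ρ (MM lam) (EE lam) (u t)| ≤ 3 / 2 * |c0| :=
      abs_le.mpr (abs_le_of_sq_le_sq' h2 (by positivity))
    show |cf ψ ρ (MM lam) (EE lam) (u t)| ≤ _
    linarith
  | succ n =>
    have hbn := bb_pos lam n
    show |af φ (MM lam) (u t) n / bb lam n| ≤ _
    rw [abs_div, abs_of_pos hbn, div_le_iff₀ hbn]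
    rcases Nat.lt_or_ge n (N + 1) with hn | hn
    · have h1 := hsh.a_bdd n t ht
      have h2 : bb lam N ≤ bb lam n := bb_anti (by linarith [G.one]) (by omega)
      have h3 : R ≤ R / bb lam N * bb lam n := by
        rw [div_mul_eq_mul_div, le_div_iff₀ hbN]
        exact mul_le_mul_of_nonneg_left h2 (by linarith)
      have h4 : 0 ≤ (Real.sqrt X + 3 / 2 * |c0|) * bb lam n := by positivity
      calc |af φ (MM lam) (u t) n| ≤ R := h1
        _ ≤ R / bb lam N * bb lam n := h3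
        _ ≤ _ := by linarith
    · obtain ⟨m, rfl⟩ : ∃ m, n = m + 1 := ⟨n - 1, by omega⟩
      have h1 := hsh.tail4 (n := m) (fun l hl => by
          show af φ (MM lam) (u 0) l = 0
          rw [hu.init]; exact G.az l (by omega)) (G.par.hη m) (G.par.hη' m)
          (fun t ht => hdom t ht (m + 1) (by omega))
          (fun l hl => by
            unfold muu
            refine mul_le_mul_of_nonneg_left (Real.exp_le_exp.mpr ?_) (by positivity)
            have := LL_mono (by linarith [G.one] : (0 : ℝ) ≤ lam) hl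
            linarith) ht
      have h2 := hsh.rec_e m t ht
      have h3 := hsh.κ_nonneg (m + 1) t ht
      have h4 := hsh.e_nonneg (m + 1) t ht
      have h5 : af φ (MM lam) (u t) (m + 1) ^ 2 ≤ X * bb lam (m + 1) ^ 2 := by
        have h6 : af φ (MM lam) (u t) (m + 1) ^ 2 ≤ 2 * etaa Cη lam m := by
          have : af φ (MM lam) (u t) (m + 1) ^ 2 ≤ tt φ ψ ρ (MM lam) (EE lam) (u t) (m + 1) / -hf φ φ := by
            have h7 : (fun n t => af φ (MM lam) (u t) n) (m + 1) t ^ 2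
              = af φ (MM lam) (u t) (m + 1) ^ 2 := rfl
            rw [h7] at h2
            linarith
          exact this.trans h1
        refine h6.trans ?_
        unfold etaa
        have h8 : Real.exp (5 / 2 * LL lam (m + 1)) = MM lam (m + 1) ^ 5 := by
          rw [MM_pow]; congr 1; push_cast; ring
        rw [h8, EE_eq]
        have h9 : MM lam (m + 1) ^ 5 * bb lam (m + 1) ^ 4 ≤ K5 * bb lam (m + 1) ^ 2 := by
          have h10 : bb lam (m + 1) ^ 3 ≤ bb lam (m + 1) ^ 2 :=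
            pow_le_pow_of_le_one hbn.le (bb_le_one lam _) (by norm_num)
          calc MM lam (m + 1) ^ 5 * bb lam (m + 1) ^ 4
              = (MM lam (m + 1) ^ 5 * bb lam (m + 1)) * bb lam (m + 1) ^ 3 := by ring
            _ ≤ K5 * bb lam (m + 1) ^ 2 :=
                mul_le_mul (hK5' (m + 1)) h10 (by positivity) hK50
        calc 2 * (2 * Cη * (MM lam (m + 1) ^ 5 * bb lam (m + 1) ^ 4))
            ≤ 2 * (2 * Cη * (K5 * bb lam (m + 1) ^ 2)) :=
              mul_le_mul_of_nonneg_left (mul_le_mul_of_nonneg_left h9 (by positivity)) (by norm_num)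
          _ = X * bb lam (m + 1) ^ 2 := by rw [hX]; ring
      have h6 : |af φ (MM lam) (u t) (m + 1)| ≤ Real.sqrt X * bb lam (m + 1) := by
        refine abs_le_of_sq_le_sq ?_ (by positivity)
        rw [mul_pow, Real.sq_sqrt hX0]
        exact h5
      have h7 : 0 ≤ (R / bb lam N + 3 / 2 * |c0|) * bb lam (m + 1) := by positivity
      calc |af φ (MM lam) (u t) (m + 1)| ≤ Real.sqrt X * bb lam (m + 1) := h6
        _ ≤ _ := by linarith

/-- decay of the coefficients, with a constant depending only on the velocity bound -/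
theorem Good.decay (G : Good φ ρ ψ x₁ ν T lam R c0 vd ks Ns) {C : ℝ} (hC0 : 0 ≤ C) :
    ∃ A : ℝ, 0 < A ∧ ∀ T' u, 0 ≤ T' → T' ≤ T →
      GSol ν (Fam φ ψ ρ (MM lam) (EE lam)) vd T' u →
      (∀ t ∈ Icc 0 T', ∀ x, ‖u t x‖ ≤ C) →
      ∀ t ∈ Icc 0 T', ∀ k, |co φ ψ ρ lam (u t) k| ≤ A := by
  obtain ⟨n₀, hn₀⟩ := G.dom_vel hC0
  obtain ⟨A, hA0, hA⟩ := G.decay0 n₀
  exact ⟨A, hA0, fun T' u h0 hT' hu hvel => hA T' u h0 hT' hu (hn₀ T' u hu.mem hvel)⟩

end

end Pool.Agent.H280R3.W
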