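import Mathlib
import Pool.Agent.H280R3.W.Rep

/-! Construction of the profiles. -/

open Set MeasureTheory Filter Topology Finset
open scoped RealInnerProductSpace ContDiff

namespace Pool.Agent.H280R3.W

/-- divergence-free fields from a potential -/
noncomputable def ct (i j : Fin 3) (g : V → ℝ) : V → V :=
  fun x => fderiv ℝ g x (ev j) • ev i - fderiv ℝ g x (ev i) • ev j

theorem ct_smooth {i j : Fin 3} {g : V → ℝ} (hg : ContDiff ℝ ∞ g) : ContDiff ℝ ∞ (ct i j g) := by
  have h1 : ContDiff ℝ ∞ (fderiv ℝ g) := hg.fderiv_right (by norm_num)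
  unfold ct
  exact ((h1.clm_apply contDiff_const).smul contDiff_const).sub
    ((h1.clm_apply contDiff_const).smul contDiff_const)

theorem ct_div {i j : Fin 3} {g : V → ℝ} (hg : ContDiff ℝ ∞ g) (x : V) :
    divg (ct i j g) x = 0 := by
  have h1 : ContDiff ℝ ∞ (fderiv ℝ g) := hg.fderiv_right (by norm_num)
  have hd : HasFDerivAt (fderiv ℝ g) (fderiv ℝ (fderiv ℝ g) x) x :=
    (h1.differentiable (by norm_num) x).hasFDerivAt
  have hap : ∀ a : V, HasFDerivAt (fun y => fderiv ℝ g y a)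
      ((fderiv ℝ (fderiv ℝ g) x).flip a) x := by
    intro a
    have := hd.clm_apply (hasFDerivAt_const a x)
    simpa using this
  have h2 : HasFDerivAt (ct i j g)
      ((((fderiv ℝ (fderiv ℝ g) x).flip (ev j)).smulRight (ev i))
        - (((fderiv ℝ (fderiv ℝ g) x).flip (ev i)).smulRight (ev j))) x :=
    ((hap (ev j)).smul_const (ev i)).sub ((hap (ev i)).smul_const (ev j))
  have hsym : IsSymmSndFDerivAt ℝ g x := by
    refine ContDiffAt.isSymmSndFDerivAt (n := ∞) hg.contDiffAt ?_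
    simp only [minSmoothness_of_isRCLikeNormedField]
    exact ENat.LEInfty.out
  unfold divg
  rw [h2.fderiv]
  have key : ∀ w : Fin 3, (((((fderiv ℝ (fderiv ℝ g) x).flip (ev j)).smulRight (ev i))
        - (((fderiv ℝ (fderiv ℝ g) x).flip (ev i)).smulRight (ev j))) (ev w)) w
      = (if w = i then fderiv ℝ (fderiv ℝ g) x (ev w) (ev j) else 0)
        - (if w = j then fderiv ℝ (fderiv ℝ g) x (ev w) (ev i) else 0) := by
    intro w
    simp [ev]
  simp only [key]
  rw [sum_sub_distrib, sum_ite_eq' , sum_ite_eq']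
  simp only [Finset.mem_univ, if_true]
  rw [hsym (ev i) (ev j), sub_self]

theorem ct_congr {i j : Fin 3} {g h : V → ℝ} {x : V} (hgh : g =ᶠ[𝓝 x] h) :
    ct i j g x = ct i j h x := by
  unfold ct; rw [hgh.fderiv_eq]

theorem ct_zero {i j : Fin 3} {g : V → ℝ} {r : ℝ} (h : ∀ x, r < ‖x‖ → g x = 0) (x : V)
    (hx : r < ‖x‖) : ct i j g x = 0 := by
  have h1 : ∀ᶠ y in 𝓝 x, r < ‖y‖ := continuous_norm.continuousAt.eventually (lt_mem_nhds hx)
  have h2 : g =ᶠ[𝓝 x] fun _ => 0 := h1.mono fun y hy => h y hy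
  rw [ct_congr h2]
  unfold ct
  simp

/-- translation -/
noncomputable def tr (p : V) (v : V → V) : V → V := fun x => v (x - p)

theorem tr_smooth {n : WithTop ℕ∞} {p : V} {v : V → V} (h : ContDiff ℝ n v) :
    ContDiff ℝ n (tr p v) := h.comp (contDiff_id.sub contDiff_const)

theorem tr_div {p : V} {v : V → V} (h : Differentiable ℝ v) (x : V) :
    divg (tr p v) x = divg v (x - p) := by
  have h1 : HasFDerivAt (fun x : V => x - p) (ContinuousLinearMap.id ℝ V) x :=
    (hasFDerivAt_id x).sub_const p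
  have h2 : HasFDerivAt (tr p v) ((fderiv ℝ v (x - p)).comp (ContinuousLinearMap.id ℝ V)) x :=
    (h (x - p)).hasFDerivAt.comp x h1
  unfold divg
  rw [h2.fderiv]
  simp

theorem tr_ip (p : V) (u v : V → V) : ip (tr p u) (tr p v) = ip u v := by
  unfold ip tr
  exact integral_sub_right_eq_self (fun x => ⟪u x, v x⟫) p

theorem tr_hf (p : V) (u v : V → V) : hf (tr p u) (tr p v) = hf u v := by
  unfold hf tr
  exact integral_sub_right_eq_self (fun x => ⟪u x, HH (v x)⟫) p

noncomputable def bmp : ContDiffBump (0 : V) := ⟨1 / 16, 1 / 8, by norm_num, by norm_num⟩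
noncomputable def zet : ContDiffBump (0 : V) := ⟨1 / 64, 1 / 32, by norm_num, by norm_num⟩

noncomputable def sig : V → V := ct 0 2 zet

theorem sig_smooth : ContDiff ℝ ∞ sig := ct_smooth zet.contDiff
theorem sig_div (x : V) : divg sig x = 0 := ct_div zet.contDiff x

theorem sig_zero (x : V) (hx : 1 / 32 < ‖x‖) : sig x = 0 := by
  refine ct_zero (r := 1 / 32) (fun y hy => ?_) x hx
  refine zet.zero_of_le_dist ?_
  show (1 / 32 : ℝ) ≤ dist y 0
  rw [dist_zero_right]; exact hy.le

theorem TF_of {v : V → V} (h1 : ContDiff ℝ ∞ v) (h2 : ∀ x, divg v x = 0) {r : ℝ}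
    (h3 : ∀ x, r < ‖x‖ → v x = 0) : TF v where
  cd := h1.of_le (by exact_mod_cast le_top)
  cs := HasCompactSupport.intro (isCompact_closedBall (0 : V) r) fun x hx => h3 x (by simpa using hx)
  dv := h2

theorem sig_TF : TF sig := TF_of sig_smooth sig_div sig_zero

theorem exists_zet : ∃ x, fderiv ℝ zet x (ev 2) ≠ 0 := by
  by_contra hcon
  push Not at hcon
  have hz : Differentiable ℝ (zet : V → ℝ) :=
    (zet.contDiff (n := 1)).differentiable (by norm_num)
  have hd : ∀ t : ℝ, HasDerivAt (fun t : ℝ => (zet : V → ℝ) (t • ev 2)) 0 t := by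
    intro t
    have h1 : HasDerivAt (fun t : ℝ => t • ev 2) ((1 : ℝ) • ev 2) t :=
      (hasDerivAt_id t).smul_const (ev 2)
    have h2 := (hz (t • ev 2)).hasFDerivAt.comp_hasDerivAt t h1
    rw [one_smul, hcon] at h2
    exact h2
  have h3 := is_const_of_deriv_eq_zero (fun t => (hd t).differentiableAt)
    (fun t => (hd t).deriv) 0 1
  have h4 : (zet : V → ℝ) ((0 : ℝ) • ev 2) = 1 := by
    rw [zero_smul]
    exact zet.one_of_mem_closedBall (Metric.mem_closedBall_self (by show (0:ℝ) ≤ 1/64; norm_num))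
  have h5 : (zet : V → ℝ) ((1 : ℝ) • ev 2) = 0 := by
    rw [one_smul]
    refine zet.zero_of_le_dist ?_
    show (1 / 32 : ℝ) ≤ dist (ev 2) 0
    rw [dist_zero_right, ev]
    simp
    norm_num
  simp only [h4, h5] at h3
  norm_num at h3

theorem sig_inner (x : V) : ⟪sig x, HH (sig x)⟫ = - (fderiv ℝ zet x (ev 2)) ^ 2 := by
  rw [← HH_symm, HH_inner]
  simp [sig, ct, ev]
  ring

theorem sig_hf : hf sig sig < 0 := by
  obtain ⟨x, hx⟩ := exists_zet
  have h : 0 < ∫ x, -⟪sig x, HH (sig x)⟫ := by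
    have hc : HasCompactSupport fun x => -⟪sig x, HH (sig x)⟫ :=
      HasCompactSupport.intro (isCompact_closedBall (0 : V) (1 / 32)) fun x hx => by
        simp [sig_zero x (by simpa using hx)]
    have := sig_TF.cont
    refine Continuous.integral_pos_of_hasCompactSupport_nonneg_nonzero (by fun_prop) hc
      (fun x => ?_) (x := x) ?_
    · rw [sig_inner, neg_neg]; exact sq_nonneg _
    · rw [sig_inner, neg_neg]; exact pow_ne_zero 2 hx
  rw [integral_neg] at h
  unfold hf
  linarith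

theorem sig_ip : 0 < ip sig sig := by
  obtain ⟨x, hx⟩ := exists_zet
  refine ip_pos_of sig_TF.CC (x := x) fun h => hx ?_
  have h1 := sig_inner x
  rw [h] at h1
  simp at h1
  exact h1

noncomputable def g0 : V → ℝ := fun x => - (bmp x * (x 0 * x 1))

theorem g0_smooth : ContDiff ℝ ∞ g0 := by
  unfold g0
  have h1 : ContDiff ℝ ∞ (fun x : V => (bmp : V → ℝ) x) := bmp.contDiff
  have h2 : ∀ i : Fin 3, ContDiff ℝ ∞ (fun x : V => x i) := fun i => by fun_prop
  exact (h1.mul ((h2 0).mul (h2 1))).neg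

noncomputable def ph0 : V → V := ct 0 1 g0

theorem ph0_smooth : ContDiff ℝ ∞ ph0 := ct_smooth g0_smooth
theorem ph0_div (x : V) : divg ph0 x = 0 := ct_div g0_smooth x

theorem ph0_zero (x : V) (hx : 1 / 8 < ‖x‖) : ph0 x = 0 := by
  refine ct_zero (r := 1 / 8) (fun y hy => ?_) x hx
  unfold g0
  rw [bmp.zero_of_le_dist]
  · simp
  · show (1 / 8 : ℝ) ≤ dist y 0
    rw [dist_zero_right]; exact hy.le

theorem ph0_lin (x : V) (hx : ‖x‖ < 1 / 16) : ph0 x = HH x := by
  have h1 : ∀ᶠ y in 𝓝 x, ‖y‖ < 1 / 16 := continuous_norm.continuousAt.eventually (gt_mem_nhds hx)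
  have h2 : g0 =ᶠ[𝓝 x] fun y => - (y 0 * y 1) := by
    refine h1.mono fun y hy => ?_
    unfold g0
    rw [bmp.one_of_mem_closedBall, one_mul]
    show y ∈ Metric.closedBall (0 : V) (1 / 16)
    simpa using hy.le
  unfold ph0
  rw [ct_congr h2]
  have hp : ∀ i : Fin 3, HasFDerivAt (fun y : V => y i) (EuclideanSpace.proj i : V →L[ℝ] ℝ) x :=
    fun i => (EuclideanSpace.proj i : V →L[ℝ] ℝ).hasFDerivAt
  have h3 : HasFDerivAt (fun y : V => - (y 0 * y 1))
      (-(x 0 • (EuclideanSpace.proj 1 : V →L[ℝ] ℝ) + x 1 • (EuclideanSpace.proj 0 : V →L[ℝ] ℝ))) x :=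
    ((hp 0).mul (hp 1)).neg
  unfold ct
  rw [h3.fderiv, HH_apply]
  simp [ev]
  abel

noncomputable def p1 : V := (1 / 2 : ℝ) • ev 0
noncomputable def p2 : V := (-(1 / 2) : ℝ) • ev 0
noncomputable def p3 : V := (2 : ℝ) • ev 0

theorem norm_ev' (i : Fin 3) : ‖ev i‖ = 1 := by simp [ev]

theorem norm_p1 : ‖p1‖ = 1 / 2 := by
  unfold p1; rw [norm_smul, norm_ev']; norm_num
theorem norm_p2 : ‖p2‖ = 1 / 2 := by
  unfold p2; rw [norm_smul, norm_ev']; norm_num
theorem norm_p3 : ‖p3‖ = 2 := by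
  unfold p3; rw [norm_smul, norm_ev']; norm_num
theorem norm_p12 : ‖p1 - p2‖ = 1 := by
  unfold p1 p2; rw [← sub_smul, norm_smul, norm_ev']; norm_num

noncomputable def phA : V → V := ph0 - tr p1 ph0

noncomputable def phS (s : ℝ) : V → V := phA + s • tr p2 sig

theorem phA_zero (x : V) (hx : 3 / 4 < ‖x‖) : phA x = 0 := by
  unfold phA tr
  simp only [Pi.sub_apply]
  rw [ph0_zero x (by linarith), ph0_zero (x - p1), sub_self]
  have := norm_sub_norm_le x p1
  rw [norm_p1] at this
  linarith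

theorem phA_disj (x : V) : phA x = 0 ∨ tr p2 sig x = 0 := by
  rcases lt_or_ge (1 / 32) ‖x - p2‖ with h | h
  · right; exact sig_zero _ h
  · left
    unfold phA tr
    simp only [Pi.sub_apply]
    have h1 := norm_sub_norm_le (-p2) (-x)
    have h1' : ‖-p2 - -x‖ = ‖x - p2‖ := by congr 1; abel
    rw [h1', norm_neg, norm_neg, norm_p2] at h1
    have h2 : ‖p1 - p2‖ ≤ ‖x - p2‖ + ‖x - p1‖ := by
      have : p1 - p2 = (x - p2) - (x - p1) := by abel
      rw [this]; exact norm_sub_le _ _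
    rw [norm_p12] at h2
    rw [ph0_zero x (by linarith), ph0_zero (x - p1) (by linarith), sub_self]

theorem phA_smooth : ContDiff ℝ ∞ phA := ph0_smooth.sub (tr_smooth ph0_smooth)

theorem phA_div (x : V) : divg phA x = 0 := by
  have h1 : Differentiable ℝ ph0 := ph0_smooth.differentiable (by simp)
  have h2 : Differentiable ℝ (tr p1 ph0) := (tr_smooth ph0_smooth).differentiable (by simp)
  unfold phA
  rw [sub_eq_add_neg, ← neg_one_smul ℝ (tr p1 ph0), divg_add h1 (h2.const_smul (-1)), divg_smul h2,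
    tr_div h1, ph0_div, ph0_div]
  ring

theorem phA_TF : TF phA := TF_of phA_smooth phA_div phA_zero

theorem tr_zero {p : V} {v : V → V} {r : ℝ} (h : ∀ x, r < ‖x‖ → v x = 0) (x : V)
    (hx : r + ‖p‖ < ‖x‖) : tr p v x = 0 := by
  refine h _ ?_
  have := norm_sub_norm_le x p
  linarith

theorem tr_TF {p : V} {v : V → V} (h1 : ContDiff ℝ ∞ v) (h2 : ∀ x, divg v x = 0) {r : ℝ}
    (h3 : ∀ x, r < ‖x‖ → v x = 0) : TF (tr p v) :=
  TF_of (tr_smooth h1) (fun x => by rw [tr_div (h1.differentiable (by simp)), h2])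
    (r := r + ‖p‖) (tr_zero h3)

theorem exists_prof : ∃ (φ ρ ψ : V → V) (x₁ : V), Prof φ ρ ψ x₁ := by
  have hsT : TF (tr p2 sig) := tr_TF sig_smooth sig_div sig_zero
  have hneg := sig_hf
  set s : ℝ := Real.sqrt ((|hf phA phA| + 1) / (-hf sig sig)) with hs
  have hs2 : s ^ 2 = (|hf phA phA| + 1) / (-hf sig sig) :=
    Real.sq_sqrt (div_nonneg (by positivity) (by linarith))
  refine ⟨phS s, tr p1 sig, tr p3 sig, p1, ?_⟩
  constructor
  · exact phA_smooth.add ((tr_smooth sig_smooth).const_smul s)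
  · exact tr_smooth sig_smooth
  · exact tr_smooth sig_smooth
  · intro x
    unfold phS
    exact (phA_TF.add (hsT.smul s)).dv x
  · intro x; rw [tr_div (sig_smooth.differentiable (by simp)), sig_div]
  · intro x; rw [tr_div (sig_smooth.differentiable (by simp)), sig_div]
  · intro x hx
    unfold phS
    simp only [Pi.add_apply, Pi.smul_apply]
    rw [phA_zero x hx, tr_zero sig_zero x (by rw [norm_p2]; linarith)]
    simp
  · intro x hx; exact sig_zero _ hx
  · intro x hx
    refine sig_zero _ ?_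
    have := norm_sub_norm_le p3 x
    rw [norm_p3, norm_sub_rev] at this
    linarith
  · exact (tr_TF sig_smooth sig_div sig_zero).cs
  · intro x hx
    unfold phS phA
    simp only [Pi.add_apply, Pi.smul_apply, Pi.sub_apply]
    have h1 := norm_sub_norm_le p1 x
    rw [norm_p1, norm_sub_rev] at h1
    have h2 := norm_sub_norm_le p2 x
    rw [norm_p2, norm_sub_rev] at h2
    rw [ph0_lin x hx]
    unfold tr
    rw [ph0_zero (x - p1) (by linarith), sig_zero (x - p2) (by linarith)]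
    simp
  · intro x hx
    unfold phS phA
    simp only [Pi.add_apply, Pi.smul_apply, Pi.sub_apply]
    have h1 := norm_sub_norm_le p1 (p1 - x)
    rw [norm_p1, norm_sub_rev p1 x] at h1
    have h1' : p1 - (p1 - x) = x := by abel
    rw [h1'] at h1
    have h2 : ‖p1 - p2‖ ≤ ‖x - p2‖ + ‖x - p1‖ := by
      have : p1 - p2 = (x - p2) - (x - p1) := by abel
      rw [this]; exact norm_sub_le _ _
    rw [norm_p12] at h2
    unfold tr
    rw [ph0_zero x (by linarith), ph0_lin (x - p1) hx, sig_zero (x - p2) (by linarith)]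
    simp
  · exact norm_p1
  · unfold phS
    have hA := phA_TF
    have hss := hsT.smul s
    have e1 : hf (tr p2 sig) (tr p2 sig) = hf sig sig := tr_hf _ _ _
    have e2 : hf phA (tr p2 sig) = 0 := hf_disj phA_disj
    have e3 : hf (phA + s • tr p2 sig) (phA + s • tr p2 sig)
        = hf phA phA + s ^ 2 * hf sig sig := by
      rw [hf_add_left hA.cont hss.cont (hA.add hss), hf_comm phA, hf_comm (s • _),
        hf_add_left hA.cont hss.cont hA, hf_add_left hA.cont hss.cont hss, hf_smul_left,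
        hf_smul_right, hf_smul_right, hf_smul_left, hf_comm (tr p2 sig), e1, e2]
      ring
    rw [e3, hs2]
    have hne : hf sig sig ≠ 0 := hneg.ne
    have e4 : (|hf phA phA| + 1) / -hf sig sig * hf sig sig = -(|hf phA phA| + 1) := by
      field_simp
    rw [e4]
    linarith [le_abs_self (hf phA phA)]
  · rw [tr_hf]; exact sig_hf
  · rw [tr_ip]; exact sig_ip

/-- the background field may be any field vanishing near the unit ball -/
theorem Prof.change {φ ρ ψ₀ ψ : V → V} {x₁ : V} (P : Prof φ ρ ψ₀ x₁) (hs : ContDiff ℝ ∞ ψ)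
    (hc : HasCompactSupport ψ) (hd : ∀ x, divg ψ x = 0) (h0 : ∀ x, ‖x‖ < 5 / 4 → ψ x = 0)
    (hp : 0 < ip ψ ψ) : Prof φ ρ ψ x₁ :=
  ⟨P.φs, P.ρs, hs, P.φd, P.ρd, hd, P.φ0, P.ρ0, h0, hc, P.φlin, P.φaff, P.x₁n, P.q_pos, P.β_pos, hp⟩

end Pool.Agent.H280R3.W
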