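import Mathlib
import Pool.Agent.H280R3.W.Blow

/-! The orthogonal projections onto the finite spans are uniformly bounded in the sup norm and in
the norm of `L¹`. -/

open Set MeasureTheory Filter Topology Finset
open scoped RealInnerProductSpace ContDiff

namespace Pool.Agent.H280R3.W

theorem PBd_of {Φ : ℕ → V → V} (hT : ∀ k, TF (Φ k)) (ho : ∀ j k, j ≠ k → ip (Φ j) (Φ k) = 0)
    (hp : ∀ k, 0 < ip (Φ k) (Φ k)) {K : ℝ}
    (hK : ∀ N x, ∑ k ∈ range N, (∫ y, ‖Φ k y‖) / ip (Φ k) (Φ k) * ‖Φ k x‖ ≤ K) : PBd Φ K := by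
  intro N f v hf hfc hv hvk
  have hcoe : Set.Iio N = (↑(range N) : Set ℕ) := by ext k; simp
  rw [hcoe, Submodule.mem_span_image_finset_iff_exists_fun'] at hv
  obtain ⟨α, rfl⟩ := hv
  have hni : ∀ k, Integrable fun x => ‖Φ k x‖ := by
    intro k
    obtain ⟨R, hR⟩ := (hT k).out
    have := (hT k).cont
    exact integrable_of_zero (by fun_prop) (R := R) fun x hx => by simp [(hR x hx).1]
  have hα : ∀ k < N, α k * ip (Φ k) (Φ k) = ip f (Φ k) := by
    intro k hk
    rw [← hvk k hk, ip_sum_left (fun j _ => ((hT j).smul _).cont) (hT k),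
      Finset.sum_eq_single k]
    · rw [ip_smul_left]
    · intro j _ hj
      rw [ip_smul_left, ho j k hj, mul_zero]
    · intro hk'
      exact absurd (mem_range.mpr hk) hk'
  have hfn : Continuous fun x => ‖f x‖ := hf.norm
  have hfΦ : ∀ k, Integrable fun x => ‖f x‖ * ‖Φ k x‖ := by
    intro k
    obtain ⟨R, hR⟩ := (hT k).out
    have := (hT k).cont
    exact integrable_of_zero (by fun_prop) (R := R) fun x hx => by simp [(hR x hx).1]
  have hα1 : ∀ k < N, |α k| ≤ (∫ x, ‖f x‖ * ‖Φ k x‖) / ip (Φ k) (Φ k) := by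
    intro k hk
    rw [le_div_iff₀ (hp k)]
    have h1 : |α k| * ip (Φ k) (Φ k) = |ip f (Φ k)| := by
      rw [← hα k hk, abs_mul, abs_of_pos (hp k)]
    rw [h1]
    unfold ip
    rw [← Real.norm_eq_abs]
    refine (norm_integral_le_integral_norm _).trans ?_
    refine integral_mono (ip_int hf (hT k)).norm (hfΦ k) fun x => ?_
    rw [Real.norm_eq_abs]
    exact abs_real_inner_le_norm _ _
  have hvx : ∀ x, ‖(∑ k ∈ range N, α k • Φ k) x‖ ≤ ∑ k ∈ range N, |α k| * ‖Φ k x‖ := by
    intro x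
    rw [Finset.sum_apply]
    refine (norm_sum_le _ _).trans (sum_le_sum fun k _ => ?_)
    rw [Pi.smul_apply, norm_smul, Real.norm_eq_abs]
  constructor
  · intro B hB x
    have hB0 : 0 ≤ B := (norm_nonneg _).trans (hB 0)
    refine (hvx x).trans ?_
    calc ∑ k ∈ range N, |α k| * ‖Φ k x‖
        ≤ ∑ k ∈ range N, B * ((∫ y, ‖Φ k y‖) / ip (Φ k) (Φ k) * ‖Φ k x‖) := by
          refine sum_le_sum fun k hk => ?_
          have h1 := hα1 k (mem_range.mp hk)
          have h2 : (∫ x, ‖f x‖ * ‖Φ k x‖) ≤ B * ∫ y, ‖Φ k y‖ := by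
            rw [← integral_const_mul]
            exact integral_mono (hfΦ k) ((hni k).const_mul B) fun y =>
              mul_le_mul_of_nonneg_right (hB y) (norm_nonneg _)
          have h3 : |α k| ≤ B * (∫ y, ‖Φ k y‖) / ip (Φ k) (Φ k) :=
            h1.trans (div_le_div_of_nonneg_right h2 (hp k).le)
          have h4 := mul_le_mul_of_nonneg_right h3 (norm_nonneg (Φ k x))
          refine h4.trans (le_of_eq ?_)
          ring
      _ = B * ∑ k ∈ range N, (∫ y, ‖Φ k y‖) / ip (Φ k) (Φ k) * ‖Φ k x‖ := by rw [mul_sum]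
      _ ≤ B * K := mul_le_mul_of_nonneg_left (hK N x) hB0
      _ = K * B := by ring
  · have hfi : Integrable fun x => ‖f x‖ := hfn.integrable_of_hasCompactSupport hfc.norm
    have hsi : Integrable fun x => ∑ k ∈ range N, |α k| * ‖Φ k x‖ :=
      integrable_finsetSum _ fun k _ => (hni k).const_mul _
    have h1 : ∫ x, ‖(∑ k ∈ range N, α k • Φ k) x‖ ≤ ∫ x, ∑ k ∈ range N, |α k| * ‖Φ k x‖ :=
      integral_mono_of_nonneg (ae_of_all _ fun x => norm_nonneg _) hsi (ae_of_all _ hvx)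
    refine h1.trans ?_
    rw [integral_finsetSum _ fun k _ => (hni k).const_mul _]
    calc ∑ k ∈ range N, ∫ x, |α k| * ‖Φ k x‖
        ≤ ∑ k ∈ range N, ∫ x, ‖f x‖ * ((∫ y, ‖Φ k y‖) / ip (Φ k) (Φ k) * ‖Φ k x‖) := by
          refine sum_le_sum fun k hk => ?_
          rw [integral_const_mul]
          have h2 := hα1 k (mem_range.mp hk)
          have hn0 : 0 ≤ ∫ y, ‖Φ k y‖ := integral_nonneg fun y => norm_nonneg _
          have h3 := mul_le_mul_of_nonneg_right h2 hn0
          refine h3.trans (le_of_eq ?_)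
          have h4 : (fun x => ‖f x‖ * ((∫ y, ‖Φ k y‖) / ip (Φ k) (Φ k) * ‖Φ k x‖))
              = fun x => ((∫ y, ‖Φ k y‖) / ip (Φ k) (Φ k)) * (‖f x‖ * ‖Φ k x‖) := by
            ext x; ring
          rw [h4, integral_const_mul]
          ring
      _ = ∫ x, ∑ k ∈ range N, ‖f x‖ * ((∫ y, ‖Φ k y‖) / ip (Φ k) (Φ k) * ‖Φ k x‖) := by
          rw [integral_finsetSum]
          intro k _
          have h4 : (fun x => ‖f x‖ * ((∫ y, ‖Φ k y‖) / ip (Φ k) (Φ k) * ‖Φ k x‖))
              = fun x => ((∫ y, ‖Φ k y‖) / ip (Φ k) (Φ k)) * (‖f x‖ * ‖Φ k x‖) := by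
            ext x; ring
          rw [h4]
          exact (hfΦ k).const_mul _
      _ ≤ ∫ x, K * ‖f x‖ := by
          refine integral_mono_of_nonneg (ae_of_all _ fun x => ?_) (hfi.const_mul K)
            (ae_of_all _ fun x => ?_)
          · refine Finset.sum_nonneg fun k _ => ?_
            have hn0 : 0 ≤ ∫ y, ‖Φ k y‖ := integral_nonneg fun y => norm_nonneg _
            have := (hp k).le
            positivity
          · simp only
            rw [← mul_sum, mul_comm K]
            exact mul_le_mul_of_nonneg_left (hK N x) (norm_nonneg _)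
      _ = K * ∫ x, ‖f x‖ := by rw [integral_const_mul]

section

variable {φ ρ ψ : V → V} {x₁ : V} {M ε : ℕ → ℝ}

/-- sums of the profile over the scales -/
theorem sum_scales (S : Scl M ε) {L : ℝ} (hL : 0 ≤ L) {F : V → ℝ} 
    (hF1 : ∀ x, F x ≤ L * ‖x‖) (hF2 : ∀ x, 3 / 4 < ‖x‖ → F x = 0) (x : V) (n : ℕ) :
    ∑ m ∈ range n, F (M m ^ 2 • x) ≤ L := by
  have hM := S.M_pos
  have h1 : ∀ n, ∑ m ∈ range n, F (M m ^ 2 • x) ≤ L * (M n ^ 2 * ‖x‖) / 63 := by
    intro n
    induction n with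
    | zero =>
      have := hM 0
      simp only [range_zero, sum_empty]
      positivity
    | succ n ih =>
      rw [sum_range_succ]
      have h2 := hF1 (M n ^ 2 • x)
      rw [S.norm_sc] at h2
      have h3 := mul_le_mul_of_nonneg_right (S.M_succ n) (norm_nonneg x)
      have h4 := mul_le_mul_of_nonneg_left h3 hL
      linarith
  induction n with
  | zero => simpa using hL
  | succ n ih =>
    rw [sum_range_succ]
    rcases le_or_gt ‖M n ^ 2 • x‖ (3 / 4) with h | h
    · have h2 := hF1 (M n ^ 2 • x)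
      have h3 := h1 n
      have h4 := mul_le_mul_of_nonneg_left h hL
      rw [S.norm_sc] at h2 h4
      linarith
    · rw [hF2 _ h, add_zero]
      exact ih

theorem Fam_orth (P : Prof φ ρ ψ x₁) (S : Scl M ε) (j k : ℕ) (hjk : j ≠ k) :
    ip (Fam φ ψ ρ M ε j) (Fam φ ψ ρ M ε k) = 0 := by
  cases j with
  | zero =>
    cases k with
    | zero => exact absurd rfl hjk
    | succ n => exact ip_φP P S n
  | succ m =>
    cases k with
    | zero => rw [ip_comm]; exact ip_φP P S m
    | succ n =>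
      show ip (sc (M m) φ) (sc (M n) φ) = 0
      rw [ip_φφ' P S, if_neg (by omega)]

theorem Fam_PBd (P : Prof φ ρ ψ x₁) (S : Scl M ε) : ∃ K, PBd (Fam φ ψ ρ M ε) K := by
  have hPT := PP_TF P S
  obtain ⟨B0, hB0, hB0'⟩ := cs_bound hPT.cont (R := sr ψ) (PP_zero P S)
  obtain ⟨b1, hb1, hb1'⟩ := cs_bound P.φT.contd (R := 3 / 4) (fderiv_zero_of P.φ0)
  have hφ0 : φ 0 = 0 := by rw [P.φlin 0 (by simp), map_zero]
  have hlip : ∀ x, ‖φ x‖ ≤ b1 * ‖x‖ := by
    intro x
    have h1 := Convex.norm_image_sub_le_of_norm_fderiv_le (𝕜 := ℝ) (f := φ) (s := univ)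
      (fun y _ => P.φT.diff y) (fun y _ => hb1' y) convex_univ (mem_univ (0 : V)) (mem_univ x)
    simpa [hφ0] using h1
  have hF := φ_pos P
  have hPp := PP_ip_pos P S
  set n0 := ∫ y, ‖PP ψ ρ M ε y‖ with hn0
  set nφ := ∫ y, ‖φ y‖ with hnφ
  have hn00 : 0 ≤ n0 := integral_nonneg fun y => norm_nonneg _
  have hnφ0 : 0 ≤ nφ := integral_nonneg fun y => norm_nonneg _
  have hsc : ∀ m, M m ^ 3 * ∫ y, ‖sc (M m) φ y‖ = nφ := by
    intro m
    have hM := S.M_pos m
    rw [hnφ, ← int_scale hM (fun x => ‖φ x‖), ← integral_const_mul]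
    congr 1; ext y
    unfold sc
    rw [norm_smul, Real.norm_eq_abs, abs_of_pos (by positivity)]
    ring
  refine ⟨n0 / ip (PP ψ ρ M ε) (PP ψ ρ M ε) * B0 + nφ / ip φ φ * b1,
    PBd_of (fun k => Fam_TF P S k) (Fam_orth P S) ?_ ?_⟩
  · intro k
    cases k with
    | zero => exact hPp
    | succ n =>
      show 0 < ip (sc (M n) φ) (sc (M n) φ)
      rw [sc_ip (S.M_pos n)]; exact hF
  · intro N x
    cases N with
    | zero => simp only [range_zero, sum_empty]; positivity
    | succ n =>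
      rw [sum_range_succ', add_comm]
      refine add_le_add ?_ ?_
      · exact mul_le_mul_of_nonneg_left (hB0' x) (by positivity)
      · have h1 : ∀ m ∈ range n, (∫ y, ‖Fam φ ψ ρ M ε (m + 1) y‖)
            / ip (Fam φ ψ ρ M ε (m + 1)) (Fam φ ψ ρ M ε (m + 1)) * ‖Fam φ ψ ρ M ε (m + 1) x‖
            = nφ / ip φ φ * ‖φ (M m ^ 2 • x)‖ := by
          intro m _
          have hM := S.M_pos m
          show (∫ y, ‖sc (M m) φ y‖) / ip (sc (M m) φ) (sc (M m) φ) * ‖sc (M m) φ x‖ = _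
          rw [sc_ip hM, ← hsc m]
          have h2 : ‖sc (M m) φ x‖ = M m ^ 3 * ‖φ (M m ^ 2 • x)‖ := by
            unfold sc
            rw [norm_smul, Real.norm_eq_abs, abs_of_pos (by positivity)]
          rw [h2]; ring
        rw [sum_congr rfl h1, ← mul_sum]
        refine mul_le_mul_of_nonneg_left ?_ (by positivity)
        exact sum_scales S hb1 (F := fun x => ‖φ x‖) hlip
          (fun x hx => by simp [P.φ0 x hx]) x n

end

end Pool.Agent.H280R3.W
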